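import Pool.Agent.R798.Toads.All

/-!
# The value of the Toads and Frogs position `T^7 □^7 F^6`

The value of `T^7 □^7 F^6` is greater than `1`, so it is neither `1` nor `1*`.
-/

set_option autoImplicit false

namespace Pool.Agent.Results.MP_a6e7b1_co.SevenToads

open Pool.Agent.R798.Toads Pool.Agent.R798.Toads.Game

theorem mem_start : bAll.mem (code (start 7)) = true := by decide +kernel

theorem lOk_start : lOk bAll (code (start 7)) P20 = true := by decide +kernel

/-- The value of `T^7 □^7 F^6` is strictly greater than `1`, and it is neither `1` nor `1*`.  In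
particular it is not true that for every `a ≥ 1` the value of `T^a □^a F^(a-1)` is `1` or `1*`. -/
theorem result :
    (Greater (value (start 7)) one ∧ ¬ Equal (value (start 7)) one ∧
      ¬ Equal (value (start 7)) (add one star)) ∧
    ¬ ∀ a : ℕ, 1 ≤ a → Equal (value (start a)) one ∨ Equal (value (start a)) (add one star) := by
  have ht : aAll.all (chk0 aAll (pows 20)) = true := by rw [pows_eq]; exact haAll
  have hs : bAll.all (chk1 aAll bAll (pows 20)) = true := by rw [pows_eq]; exact hbAll
  have h := greater_one ht hs (p := start 7) (by simp [start]) mem_start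
    (by rw [pows_eq]; exact lOk_start)
  refine ⟨h, fun hall => ?_⟩
  rcases hall 7 (by norm_num) with h1 | h1
  · exact h.2.1 h1
  · exact h.2.2 h1

end Pool.Agent.Results.MP_a6e7b1_co.SevenToads
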